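import Pool.Agent.Q19.HO.Stm

/-!
# Project HO (helper19): Jordan automorphisms of the symmetric matrices (helper40)
-/

set_option autoImplicit false
set_option linter.unusedSimpArgs false

namespace Pool.Agent.Q40.HO.JORD

open Pool.Agent.Q19.HO Matrix

variable {K : Type} [Field K] {n : ℕ}

/-- matrix unit -/
abbrev E (i j : Fin n) : Matrix (Fin n) (Fin n) K := Matrix.single i j 1

lemma EE_same (i j k : Fin n) : (E i j : Matrix (Fin n) (Fin n) K) * E j k = E i k := by
  unfold E
  rw [Matrix.single_mul_single_same, mul_one]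

lemma EE_ne {i j k l : Fin n} (h : j ≠ k) : (E i j : Matrix (Fin n) (Fin n) K) * E k l = 0 := by
  unfold E
  exact Matrix.single_mul_single_of_ne _ _ _ _ h _

lemma E_tr (i j : Fin n) : (E i j : Matrix (Fin n) (Fin n) K)ᵀ = E j i := by
  unfold E
  rw [Matrix.transpose_single]

lemma two_cancel (h2 : (2 : K) ≠ 0) {x y : Matrix (Fin n) (Fin n) K} (h : x + x = y + y) :
    x = y := by
  have h' : (2 : K) • x = (2 : K) • y := by rw [two_smul, two_smul, h]
  exact smul_right_injective _ h2 h'

lemma EX_apply (i : Fin n) (X : Matrix (Fin n) (Fin n) K) (a b : Fin n) :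
    ((E i i : Matrix (Fin n) (Fin n) K) * X) a b = if a = i then X a b else 0 := by
  unfold E
  by_cases h : a = i
  · subst h
    rw [if_pos rfl, Matrix.single_mul_apply_same, one_mul]
  · rw [if_neg h, Matrix.single_mul_apply_of_ne _ _ _ _ _ h]

lemma XE_apply (i : Fin n) (X : Matrix (Fin n) (Fin n) K) (a b : Fin n) :
    (X * (E i i : Matrix (Fin n) (Fin n) K)) a b = if b = i then X a b else 0 := by
  unfold E
  by_cases h : b = i
  · subst h
    rw [if_pos rfl, Matrix.mul_single_apply_same, mul_one]
  · rw [if_neg h, Matrix.mul_single_apply_of_ne _ _ _ _ _ h]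

/-- the Peirce component -/
lemma form {i j : Fin n} (hij : i ≠ j) (X : Matrix (Fin n) (Fin n) K)
    (h1 : E i i * X + X * E i i = X) (h2 : E j j * X + X * E j j = X) (a b : Fin n) :
    X a b = if i = a ∧ j = b then X i j else if j = a ∧ i = b then X j i else 0 := by
  have e1 := congrFun (congrFun h1 a) b
  have e2 := congrFun (congrFun h2 a) b
  rw [Matrix.add_apply, EX_apply, XE_apply] at e1 e2
  by_cases ha : a = i
  · subst ha
    by_cases hb : b = j
    · subst hb
      simp
    · by_cases hb' : b = a
      · subst hb'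
        have h0 : X b b = 0 := by simpa using e1
        simp [hb, Ne.symm hb, hij, Ne.symm hij, h0]
      · have h0 : X a b = 0 := by
          simpa [hij, hb] using e2.symm
        simp [hb, hb', Ne.symm hb, Ne.symm hb', h0]
  · by_cases ha' : a = j
    · subst ha'
      by_cases hb : b = i
      · subst hb
        simp [hij]
      · by_cases hb' : b = a
        · subst hb'
          have h0 : X b b = 0 := by simpa using e2
          simp [hb, hij, h0]
        · have h0 : X a b = 0 := by
            simpa [ha, hb] using e1.symm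
          simp [hb, hb', Ne.symm hb, Ne.symm hb', h0]
    · by_cases hb : b = i
      · subst hb
        have h0 : X a b = 0 := by
          simpa [ha', hij] using e2.symm
        simp [Ne.symm ha, Ne.symm ha', h0]
      · have h0 : X a b = 0 := by
          simpa [ha, hb] using e1.symm
        simp [Ne.symm ha, Ne.symm ha', h0]

lemma diag_conj (d e : Fin n → K) (X : Matrix (Fin n) (Fin n) K) (a b : Fin n) :
    (diagonal d * X * diagonal e) a b = d a * X a b * e b := by
  rw [Matrix.mul_diagonal, Matrix.diagonal_mul]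

theorem t : S_JORD := by
  intro K _ n h2 ψ hinj hone hmul
  classical
  rcases Nat.eq_zero_or_pos n with rfl | hn
  · refine ⟨1, ⟨1, ?_⟩, ?_⟩
    · exact Subsingleton.elim _ _
    · intro s
      exact Subsingleton.elim _ _
  have o : Fin n := ⟨0, hn⟩
  have hE : ∀ i : Fin n, (E i i : Matrix (Fin n) (Fin n) K) ∈ SymK n K := fun i => E_tr i i
  have hS : ∀ i j : Fin n, (E i j + E j i : Matrix (Fin n) (Fin n) K) ∈ SymK n K := by
    intro i j
    show (E i j + E j i : Matrix (Fin n) (Fin n) K)ᵀ = E i j + E j i
    rw [Matrix.transpose_add, E_tr, E_tr, add_comm]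
  set e : Fin n → SymK n K := fun i => ⟨E i i, hE i⟩ with he
  set s : Fin n → Fin n → SymK n K := fun i j => ⟨E i j + E j i, hS i j⟩ with hs
  set f : Fin n → Matrix (Fin n) (Fin n) K := fun i => (ψ (e i) : Matrix (Fin n) (Fin n) K) with hf
  set T : Fin n → Fin n → Matrix (Fin n) (Fin n) K :=
    fun i j => (ψ (s i j) : Matrix (Fin n) (Fin n) K) with hT
  have hidem : ∀ i, f i * f i = f i := by
    intro i
    have h := hmul (e i) (e i) (e i + e i) (by
      show E i i * E i i + E i i * E i i = E i i + E i i
      rw [EE_same])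
    rw [map_add] at h
    exact two_cancel h2 h
  have horth : ∀ i j, i ≠ j → f i * f j = 0 := by
    intro i j hij
    have h := hmul (e i) (e j) 0 (by
      show E i i * E j j + E j j * E i i = 0
      rw [EE_ne hij, EE_ne hij.symm, add_zero])
    rw [map_zero] at h
    have h0 : f i * f j + f j * f i = 0 := h
    have h3 : f i * f j + f i * f j * f i = 0 := by
      have := congrArg (fun M => f i * M) h0
      simp only [mul_add, mul_zero] at this
      rw [← mul_assoc, ← mul_assoc, hidem] at this
      exact this
    have h4 : f i * f j * f i + f j * f i = 0 := by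
      have := congrArg (fun M => M * f i) h0
      simp only [add_mul, zero_mul] at this
      rw [mul_assoc (f j), hidem] at this
      exact this
    have h5 : f i * f j = f j * f i := by
      rw [eq_neg_of_add_eq_zero_left h3, eq_neg_of_add_eq_zero_right h4]
    rw [← h5] at h0
    exact two_cancel h2 (by rw [h0, add_zero])
  have hsymf : ∀ i, (f i)ᵀ = f i := fun i => (ψ (e i)).2
  have hsymT : ∀ i j, (T i j)ᵀ = T i j := fun i j => (ψ (s i j)).2
  have hTc : ∀ i j, T i j = T j i := by
    intro i j
    have : s i j = s j i := Subtype.ext (add_comm _ _)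
    rw [hT]
    simp only [this]
  have hTii : ∀ i, T i i = f i + f i := by
    intro i
    have h : s i i = e i + e i := rfl
    show (ψ (s i i) : Matrix (Fin n) (Fin n) K) = _
    rw [h, map_add]
    rfl
  have F3 : ∀ i j, i ≠ j → f i * T i j + T i j * f i = T i j := by
    intro i j hij
    exact hmul (e i) (s i j) (s i j) (by
      show E i i * (E i j + E j i) + (E i j + E j i) * E i i = E i j + E j i
      rw [mul_add, add_mul, EE_same, EE_same, EE_ne hij, EE_ne hij.symm, add_zero, zero_add])
  have F4 : ∀ i j, i ≠ j → T i j * T i j = f i + f j := by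
    intro i j hij
    have h := hmul (s i j) (s i j) (e i + e j + (e i + e j)) (by
      show (E i j + E j i) * (E i j + E j i) + (E i j + E j i) * (E i j + E j i) =
        E i i + E j j + (E i i + E j j)
      rw [mul_add, add_mul, add_mul, EE_same, EE_same, EE_ne hij, EE_ne hij.symm, zero_add,
        add_zero, add_comm (E j j)])
    rw [map_add, map_add] at h
    exact two_cancel h2 h
  have F5 : ∀ i j, i ≠ j → i ≠ o → j ≠ o → T o i * T o j + T o j * T o i = T i j := by
    intro i j hij hi hj
    exact hmul (s o i) (s o j) (s i j) (by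
      show (E o i + E i o) * (E o j + E j o) + (E o j + E j o) * (E o i + E i o) = E i j + E j i
      rw [mul_add, add_mul, add_mul, mul_add, add_mul, add_mul, EE_ne hi, EE_same, EE_ne hij,
        EE_ne hj.symm, EE_ne hj, EE_same, EE_ne hij.symm, EE_ne hi.symm]
      simp)
  -- nonzero entries
  have hne : ∀ i, ∃ b a, f i a b ≠ 0 := by
    intro i
    by_contra hcon
    push Not at hcon
    have h0 : f i = 0 := by
      ext a b
      exact hcon b a
    have h1 : ψ (e i) = 0 := Subtype.ext h0
    have h3 : e i = 0 := hinj (by rw [h1, map_zero])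
    have h4 : (E i i : Matrix (Fin n) (Fin n) K) = 0 := congrArg Subtype.val h3
    have h5 := congrFun (congrFun h4 i) i
    unfold E at h5
    rw [Matrix.single_apply_same] at h5
    exact one_ne_zero h5
  choose b a0 hb using hne
  set V : Matrix (Fin n) (Fin n) K := fun x i => f i x (b i) with hV
  have hprod : ∀ j x i, (f j * V) x i = (f j * f i) x (b i) := fun j x i => rfl
  have hfV : ∀ j, f j * V = V * E j j := by
    intro j
    ext x i
    rw [hprod, XE_apply]
    by_cases hij : i = j
    · subst hij
      rw [if_pos rfl, hidem]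
    · rw [if_neg hij, horth j i (Ne.symm hij)]
      rfl
  have hVinj : Function.Injective V.mulVec := by
    intro c d h
    have h0 : V *ᵥ (c - d) = 0 := by
      rw [Matrix.mulVec_sub, sub_eq_zero]
      exact h
    funext j
    have h1 : (V * E j j) *ᵥ (c - d) = 0 := by
      rw [← hfV, ← Matrix.mulVec_mulVec, h0, Matrix.mulVec_zero]
    have h3 := congrFun h1 (a0 j)
    have h4 : ((V * E j j) *ᵥ (c - d)) (a0 j) = V (a0 j) j * (c j - d j) := by
      rw [Matrix.mulVec, dotProduct, Finset.sum_eq_single j]
      · rw [XE_apply, if_pos rfl]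
        rfl
      · intro k _ hk
        rw [XE_apply, if_neg hk, zero_mul]
      · intro hk
        exact absurd (Finset.mem_univ j) hk
    rw [h4] at h3
    have h5 : V (a0 j) j * (c j - d j) = 0 := h3
    rcases mul_eq_zero.1 h5 with h6 | h6
    · exact absurd h6 (hb j)
    · exact sub_eq_zero.1 h6
  have hVu : IsUnit V := Matrix.mulVec_injective_iff_isUnit.1 hVinj
  obtain ⟨u, hu⟩ := hVu
  set W : Matrix (Fin n) (Fin n) K := (↑u⁻¹ : Matrix (Fin n) (Fin n) K) with hW
  have hVW : V * W = 1 := by rw [← hu, hW, Units.mul_inv]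
  have hWV : W * V = 1 := by rw [← hu, hW, Units.inv_mul]
  -- conjugation by `V`
  have hc : ∀ X Y : Matrix (Fin n) (Fin n) K, (W * X * V) * (W * Y * V) = W * (X * Y) * V := by
    intro X Y
    calc (W * X * V) * (W * Y * V) = W * X * (V * W) * Y * V := by simp only [mul_assoc]
      _ = W * (X * Y) * V := by rw [hVW, mul_one]; simp only [mul_assoc]
  have hcf : ∀ i, W * f i * V = E i i := by
    intro i
    rw [mul_assoc, hfV, ← mul_assoc, hWV, one_mul]
  have hθ : ∀ i j, i ≠ j → E i i * (W * T i j * V) + (W * T i j * V) * E i i = W * T i j * V := by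
    intro i j hij
    rw [← hcf i, hc, hc, ← add_mul, ← mul_add, F3 i j hij]
  have hθ' : ∀ i j, i ≠ j → E j j * (W * T i j * V) + (W * T i j * V) * E j j = W * T i j * V := by
    intro i j hij
    rw [hTc i j]
    exact hθ j i hij.symm
  have hform : ∀ i j, i ≠ j → ∀ x y, (W * T i j * V) x y =
      if i = x ∧ j = y then (W * T i j * V) i j else
        if j = x ∧ i = y then (W * T i j * V) j i else 0 := by
    intro i j hij x y
    exact form hij _ (hθ i j hij) (hθ' i j hij) x y
  have hαβ : ∀ i j, i ≠ j → (W * T i j * V) i j * (W * T i j * V) j i = 1 := by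
    intro i j hij
    have h : (W * T i j * V) * (W * T i j * V) = E i i + E j j := by
      rw [hc, F4 i j hij, mul_add, add_mul, hcf, hcf]
    have h3 := congrFun (congrFun h i) i
    rw [Matrix.mul_apply, Finset.sum_eq_single j] at h3
    · rw [h3]
      unfold E
      rw [Matrix.add_apply, Matrix.single_apply_same, Matrix.single_apply_of_ne, add_zero]
      exact fun h => hij h.1.symm
    · intro k _ hk
      rw [hform i j hij i k, if_neg (fun h => hk h.2.symm), if_neg (fun h => hij h.1.symm),
        zero_mul]
    · intro hk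
      exact absurd (Finset.mem_univ j) hk
  -- the Gram matrix
  have hDX : ∀ X : Matrix (Fin n) (Fin n) K, Xᵀ = X →
      (Vᵀ * V * (W * X * V))ᵀ = Vᵀ * V * (W * X * V) := by
    intro X hX
    have h1 : Vᵀ * V * (W * X * V) = Vᵀ * X * V := by
      calc Vᵀ * V * (W * X * V) = Vᵀ * (V * W) * X * V := by simp only [mul_assoc]
        _ = Vᵀ * X * V := by rw [hVW, mul_one]
    rw [h1, Matrix.transpose_mul, Matrix.transpose_mul, Matrix.transpose_transpose, hX, mul_assoc]
  have hD : ∀ x i, x ≠ i → (Vᵀ * V) x i = 0 := by
    intro x i hxi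
    have h := congrFun (congrFun (hDX (f i) (hsymf i)) i) x
    rw [hcf i, Matrix.transpose_apply, XE_apply, XE_apply, if_pos rfl, if_neg hxi] at h
    exact h
  have hDθ : ∀ i j, i ≠ j → (Vᵀ * V) i i * (W * T i j * V) i j =
      (Vᵀ * V) j j * (W * T i j * V) j i := by
    intro i j hij
    have hent : ∀ (X : Matrix (Fin n) (Fin n) K) (x y : Fin n),
        (Vᵀ * V * X) x y = (Vᵀ * V) x x * X x y := by
      intro X x y
      rw [Matrix.mul_apply, Finset.sum_eq_single x]
      · intro k _ hk
        rw [hD x k (Ne.symm hk), zero_mul]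
      · intro hk
        exact absurd (Finset.mem_univ x) hk
    have h := congrFun (congrFun (hDX (T i j) (hsymT i j)) j) i
    rw [Matrix.transpose_apply, hent, hent] at h
    exact h
  -- the scaling
  set c : Fin n → K := fun j => if j = o then 1 else (W * T o j * V) j o with hcdef
  have hco : c o = 1 := by rw [hcdef]; simp
  have hcj : ∀ j, j ≠ o → c j = (W * T o j * V) j o := by
    intro j hj
    rw [hcdef]
    simp only [if_neg hj]
  have hc0 : ∀ j, c j ≠ 0 := by
    intro j
    by_cases hj : j = o
    · rw [hj, hco]; exact one_ne_zero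
    · rw [hcj j hj]
      intro h0
      have := hαβ o j (Ne.symm hj)
      rw [h0, mul_zero] at this
      exact zero_ne_one this
  have hdd : diagonal c * diagonal (fun j => (c j)⁻¹) = (1 : Matrix (Fin n) (Fin n) K) := by
    rw [Matrix.diagonal_mul_diagonal, ← Matrix.diagonal_one]
    congr 1
    funext j
    exact mul_inv_cancel₀ (hc0 j)
  have hdd' : diagonal (fun j => (c j)⁻¹) * diagonal c = (1 : Matrix (Fin n) (Fin n) K) := by
    rw [Matrix.diagonal_mul_diagonal, ← Matrix.diagonal_one]
    congr 1
    funext j
    exact inv_mul_cancel₀ (hc0 j)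
  set g : Matrix (Fin n) (Fin n) K := V * diagonal c with hg
  set g' : Matrix (Fin n) (Fin n) K := diagonal (fun j => (c j)⁻¹) * W with hg'
  have hgg' : g * g' = 1 := by
    calc g * g' = V * (diagonal c * diagonal (fun j => (c j)⁻¹)) * W := by
          rw [hg, hg']; simp only [mul_assoc]
      _ = 1 := by rw [hdd, mul_one, hVW]
  have hg'g : g' * g = 1 := by
    calc g' * g = diagonal (fun j => (c j)⁻¹) * (W * V) * diagonal c := by
          rw [hg, hg']; simp only [mul_assoc]
      _ = 1 := by rw [hWV, mul_one, hdd']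
  have hG : ∀ X Y : Matrix (Fin n) (Fin n) K, (g' * X * g) * (g' * Y * g) = g' * (X * Y) * g := by
    intro X Y
    calc (g' * X * g) * (g' * Y * g) = g' * X * (g * g') * Y * g := by simp only [mul_assoc]
      _ = g' * (X * Y) * g := by rw [hgg', mul_one]; simp only [mul_assoc]
  have hGX : ∀ (X : Matrix (Fin n) (Fin n) K) (x y : Fin n),
      (g' * X * g) x y = (c x)⁻¹ * (W * X * V) x y * c y := by
    intro X x y
    have h : g' * X * g = diagonal (fun j => (c j)⁻¹) * (W * X * V) * diagonal c := by
      rw [hg, hg']; simp only [mul_assoc]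
    rw [h, diag_conj]
  have hGf : ∀ i, g' * f i * g = E i i := by
    intro i
    ext x y
    rw [hGX, hcf]
    unfold E
    by_cases h : i = x ∧ i = y
    · obtain ⟨rfl, rfl⟩ := h
      rw [Matrix.single_apply_same, mul_one, inv_mul_cancel₀ (hc0 _)]
    · rw [Matrix.single_apply_of_ne _ _ _ _ _ h]
      ring
  have hGo : ∀ j, j ≠ o → g' * T o j * g = E o j + E j o := by
    intro j hj
    ext x y
    rw [hGX, hform o j (Ne.symm hj)]
    unfold E
    rw [Matrix.add_apply, Matrix.single_apply, Matrix.single_apply]
    by_cases h : o = x ∧ j = y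
    · obtain ⟨rfl, rfl⟩ := h
      rw [if_pos ⟨rfl, rfl⟩, if_pos ⟨rfl, rfl⟩, if_neg (fun h => hj h.1), hco, hcj _ hj, inv_one,
        one_mul, hαβ _ _ (Ne.symm hj), add_zero]
    · rw [if_neg h, if_neg h, zero_add]
      by_cases h' : j = x ∧ o = y
      · obtain ⟨rfl, rfl⟩ := h'
        rw [if_pos ⟨rfl, rfl⟩, if_pos ⟨rfl, rfl⟩, hco, mul_one, ← hcj _ hj,
          inv_mul_cancel₀ (hc0 _)]
      · rw [if_neg h', if_neg h']
        ring
  have hGT : ∀ i j, g' * T i j * g = E i j + E j i := by
    intro i j
    by_cases hij : i = j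
    · subst hij
      rw [hTii, mul_add, add_mul, hGf]
    · by_cases hi : i = o
      · subst hi
        exact hGo j (Ne.symm hij)
      · by_cases hj : j = o
        · subst hj
          rw [hTc, hGo i hi, add_comm]
        · rw [← F5 i j hij hi hj, mul_add, add_mul, ← hG, ← hG, hGo i hi, hGo j hj]
          rw [mul_add, add_mul, add_mul, mul_add, add_mul, add_mul, EE_ne hi, EE_same, EE_ne hij,
            EE_ne (Ne.symm hj), EE_ne hj, EE_same, EE_ne (Ne.symm hij), EE_ne (Ne.symm hi)]
          simp
  refine ⟨⟨g, g', hgg', hg'g⟩, ⟨(Vᵀ * V) o o, ?_⟩, ?_⟩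
  · show gᵀ * g = (Vᵀ * V) o o • (1 : Matrix (Fin n) (Fin n) K)
    have h : gᵀ * g = diagonal c * (Vᵀ * V) * diagonal c := by
      rw [hg, Matrix.transpose_mul, Matrix.diagonal_transpose]
      simp only [mul_assoc]
    rw [h]
    ext x y
    rw [diag_conj, Matrix.smul_apply, Matrix.one_apply, smul_eq_mul]
    by_cases hxy : x = y
    · subst hxy
      rw [if_pos rfl, mul_one]
      by_cases hx : x = o
      · rw [hx, hco]
        ring
      · rw [hcj x hx]
        have h1 := hαβ o x (Ne.symm hx)
        have h3 := hDθ o x (Ne.symm hx)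
        calc (W * T o x * V) x o * (Vᵀ * V) x x * (W * T o x * V) x o
            = (W * T o x * V) x o * ((Vᵀ * V) x x * (W * T o x * V) x o) := by ring
          _ = (Vᵀ * V) o o * ((W * T o x * V) o x * (W * T o x * V) x o) := by rw [← h3]; ring
          _ = (Vᵀ * V) o o := by rw [h1, mul_one]
    · rw [if_neg hxy, hD x y hxy]
      ring
  · intro x
    show (ψ x : Matrix (Fin n) (Fin n) K) = g * x * g'
    have hx : (x : Matrix (Fin n) (Fin n) K)ᵀ = x := x.2
    have hsum : (2 : K) • x = ∑ i, ∑ j, (x : Matrix (Fin n) (Fin n) K) i j • s i j := by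
      apply Subtype.ext
      rw [Submodule.coe_smul, Submodule.coe_sum]
      have h1 : ∀ i, ((∑ j, (x : Matrix (Fin n) (Fin n) K) i j • s i j : SymK n K) :
          Matrix (Fin n) (Fin n) K) = ∑ j, (x : Matrix (Fin n) (Fin n) K) i j • (E i j + E j i) := by
        intro i
        rw [Submodule.coe_sum]
        rfl
      simp only [h1, smul_add, Finset.sum_add_distrib]
      have h3 : ∑ i, ∑ j, (x : Matrix (Fin n) (Fin n) K) i j • (E i j : Matrix (Fin n) (Fin n) K) =
          x := by
        conv_rhs => rw [Matrix.matrix_eq_sum_single (x : Matrix (Fin n) (Fin n) K)]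
        refine Finset.sum_congr rfl fun i _ => Finset.sum_congr rfl fun j _ => ?_
        unfold E
        rw [Matrix.smul_single, smul_eq_mul, mul_one]
      have h4 : ∑ i, ∑ j, (x : Matrix (Fin n) (Fin n) K) i j • (E j i : Matrix (Fin n) (Fin n) K) =
          x := by
        rw [Finset.sum_comm]
        conv_rhs => rw [← h3]
        refine Finset.sum_congr rfl fun i _ => Finset.sum_congr rfl fun j _ => ?_
        have := congrFun (congrFun hx i) j
        rw [Matrix.transpose_apply] at this
        rw [this]
      rw [h3, h4, two_smul]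
    have h5 : (2 : K) • (g' * (ψ x : Matrix (Fin n) (Fin n) K) * g) =
        (2 : K) • (x : Matrix (Fin n) (Fin n) K) := by
      have h6 : (2 : K) • (g' * (ψ x : Matrix (Fin n) (Fin n) K) * g) =
          g' * ((ψ ((2 : K) • x) : SymK n K) : Matrix (Fin n) (Fin n) K) * g := by
        rw [map_smul, Submodule.coe_smul, Matrix.mul_smul, Matrix.smul_mul]
      rw [h6, hsum, map_sum, Submodule.coe_sum, Finset.mul_sum, Finset.sum_mul]
      have h7 : ((2 : K) • x : SymK n K).1 = (2 : K) • (x : Matrix (Fin n) (Fin n) K) := rfl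
      rw [← h7, hsum, Submodule.coe_sum]
      refine Finset.sum_congr rfl fun i _ => ?_
      rw [map_sum, Submodule.coe_sum, Submodule.coe_sum, Finset.mul_sum, Finset.sum_mul]
      refine Finset.sum_congr rfl fun j _ => ?_
      rw [map_smul, Submodule.coe_smul, Submodule.coe_smul, Matrix.mul_smul, Matrix.smul_mul]
      congr 1
      exact hGT i j
    have h8 : g' * (ψ x : Matrix (Fin n) (Fin n) K) * g = x := smul_right_injective _ h2 h5
    calc (ψ x : Matrix (Fin n) (Fin n) K) = (g * g') * (ψ x : Matrix (Fin n) (Fin n) K) * (g * g') := by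
          rw [hgg', one_mul, mul_one]
      _ = g * (g' * (ψ x : Matrix (Fin n) (Fin n) K) * g) * g' := by simp only [mul_assoc]
      _ = g * x * g' := by rw [h8]

end Pool.Agent.Q40.HO.JORD
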